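import Mathlib

open Set Filter Topology MeasureTheory

namespace Pool.Agent.Results.MP_95ad2c_an.Dust

/-- `f` is locally convex on `U` -/
def LocConvex (f : ℝ × ℝ → ℝ) (U : Set (ℝ × ℝ)) : Prop :=
  ∀ x ∈ U, ∃ V, IsOpen V ∧ x ∈ V ∧ V ⊆ U ∧ ConvexOn ℝ V f

/-- `K` is `c`-removable -/
def Removable (K : Set (ℝ × ℝ)) : Prop :=
  ∀ f : ℝ × ℝ → ℝ, Continuous f → LocConvex f Kᶜ → ConvexOn ℝ univ f

lemma loc_mid {f : ℝ × ℝ → ℝ} {U : Set (ℝ × ℝ)} (h : LocConvex f U) {x : ℝ × ℝ} (hx : x ∈ U)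
    (d : ℝ × ℝ) : ∀ᶠ τ in 𝓝 (0 : ℝ), 2 * f x ≤ f (x + τ • d) + f (x - τ • d) := by
  obtain ⟨V, h1, h2, -, h4⟩ := h x hx
  have c1 : ContinuousAt (fun τ : ℝ => x + τ • d) 0 := by fun_prop
  have c2 : ContinuousAt (fun τ : ℝ => x - τ • d) 0 := by fun_prop
  filter_upwards [c1.eventually (h1.mem_nhds (by simpa using h2)),
    c2.eventually (h1.mem_nhds (by simpa using h2))] with τ a b
  have := h4.2 a b (show (0 : ℝ) ≤ 1 / 2 by norm_num) (show (0 : ℝ) ≤ 1 / 2 by norm_num)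
    (by norm_num)
  rw [show (1 / 2 : ℝ) • (x + τ • d) + (1 / 2 : ℝ) • (x - τ • d) = x by module] at this
  simp only [smul_eq_mul] at this
  linarith

lemma small {P : ℝ → Prop} (h : ∀ᶠ τ in 𝓝 (0 : ℝ), P τ) : ∃ τ, 0 < τ ∧ P τ := by
  obtain ⟨τ, h1, h2⟩ := ((h.filter_mono nhdsWithin_le_nhds).and
    (self_mem_nhdsWithin (a := (0 : ℝ)) (s := Ioi 0))).exists
  exact ⟨τ, h2, h1⟩

lemma line_mid {φ : ℝ → ℝ} (hc : Continuous φ)
    (h : ∀ s, ∀ᶠ τ in 𝓝 (0 : ℝ), 2 * φ s ≤ φ (s + τ) + φ (s - τ)) :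
    2 * φ 0 ≤ φ 1 + φ (-1) := by
  by_contra hn
  push Not at hn
  set ε := (2 * φ 0 - φ 1 - φ (-1)) / 4 with hε
  have hε0 : 0 < ε := by rw [hε]; linarith
  set G : ℝ → ℝ := fun s => φ s - (φ 1 - φ (-1)) / 2 * s + ε * s ^ 2 with hG
  obtain ⟨s, hs, hm⟩ := (isCompact_Icc (a := (-1 : ℝ)) (b := 1)).exists_isMaxOn
    ⟨0, by norm_num⟩ (f := G) (by fun_prop)
  have h0 : G 0 ≤ G s := hm (show (0 : ℝ) ∈ Icc (-1 : ℝ) 1 by norm_num)
  have h1 : s ≠ 1 := by rintro rfl; simp only [hG] at h0; linarith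
  have h2 : s ≠ -1 := by rintro rfl; simp only [hG] at h0; linarith
  have hn : Icc (-1 : ℝ) 1 ∈ 𝓝 s :=
    Icc_mem_nhds (lt_of_le_of_ne hs.1 h2.symm) (lt_of_le_of_ne hs.2 h1)
  have c1 : ContinuousAt (fun τ : ℝ => s + τ) 0 := by fun_prop
  have c2 : ContinuousAt (fun τ : ℝ => s - τ) 0 := by fun_prop
  obtain ⟨τ, t0, t1, t2, t3⟩ := small ((h s).and ((c1.eventually_mem (by rwa [add_zero])).and
    (c2.eventually_mem (by rwa [sub_zero]))))
  have a1 : G (s + τ) ≤ G s := hm t2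
  have a2 : G (s - τ) ≤ G s := hm t3
  simp only [hG] at a1 a2
  nlinarith [mul_pos hε0 (mul_pos t0 t0)]

lemma two_sided {f : ℝ × ℝ → ℝ}
    (h1 : ∀ x t, 2 * f x ≤ f (x + (t, 0)) + f (x - (t, 0)))
    (h2 : ∀ x t, 2 * f x ≤ f (x + (0, t)) + f (x - (0, t))) {x : ℝ × ℝ} {q : ℝ × ℝ →L[ℝ] ℝ}
    {M κ : ℝ} (hM : 0 ≤ M) (h : ∀ u, ‖u‖ ≤ κ → f (x + u) - f x - q u ≤ M * ‖u‖ ^ 2) {u : ℝ × ℝ}
    {r : ℝ} (hu : ‖u‖ ≤ r) (hr : r ≤ κ) : |f (x + u) - f x - q u| ≤ 3 * M * r ^ 2 := by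
  have b : ∀ u, ‖u‖ ≤ r → f (x + u) - f x - q u ≤ M * r ^ 2 := fun u hu =>
    (h u (hu.trans hr)).trans (by gcongr)
  have n1 := (norm_fst_le u).trans hu
  have n2 := (norm_snd_le u).trans hu
  have r0 : 0 ≤ r := (norm_nonneg _).trans hu
  have a0 := b u hu
  have a1 := b (-(u.1, 0)) (by simpa [Prod.norm_def, r0] using n1)
  have a2 := b (u.1, -u.2) (by simpa [Prod.norm_def] using ⟨n1, n2⟩)
  have a3 := h1 x u.1
  have a4 := h2 (x + (u.1, 0)) u.2
  have e1 : x + (u.1, 0) + (0, u.2) = x + u := by ext <;> simp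
  have e2 : x + (u.1, 0) - (0, u.2) = x + (u.1, -u.2) := by ext <;> simp [sub_eq_add_neg]
  have e3 : q u + q (u.1, -u.2) = 2 * q (u.1, 0) := by
    rw [← map_add, two_mul, ← map_add]; congr 1; ext <;> simp
  rw [e1, e2] at a4
  rw [map_neg, ← sub_eq_add_neg] at a1
  have := mul_nonneg hM (sq_nonneg r)
  rw [abs_le]; constructor <;> linarith

lemma slope_lip {f : ℝ × ℝ → ℝ}
    (h1 : ∀ x t, 2 * f x ≤ f (x + (t, 0)) + f (x - (t, 0)))
    (h2 : ∀ x t, 2 * f x ≤ f (x + (0, t)) + f (x - (0, t))) {x x' : ℝ × ℝ}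
    {q q' : ℝ × ℝ →L[ℝ] ℝ} {M κ : ℝ} (hM : 0 ≤ M)
    (h : ∀ u, ‖u‖ ≤ κ → f (x + u) - f x - q u ≤ M * ‖u‖ ^ 2)
    (h' : ∀ u, ‖u‖ ≤ κ → f (x' + u) - f x' - q' u ≤ M * ‖u‖ ^ 2) (hx : 2 * ‖x - x'‖ < κ)
    (v : ℝ × ℝ) : |q v - q' v| ≤ 15 * M * (‖v‖ + 1) * ‖x - x'‖ := by
  have key : ∀ r, ‖x - x'‖ < r → 2 * r ≤ κ → |q v - q' v| ≤ 15 * M * (‖v‖ + 1) * r := by
    intro r r1 r2
    have r0 : 0 < r := (norm_nonneg _).trans_lt r1
    have b : ∀ u, ‖u‖ ≤ r → |q u - q' u - (f x' - f x + q' (x - x'))| ≤ 15 * M * r ^ 2 := by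
      intro u hu
      have a1 := two_sided h1 h2 hM h hu (by linarith)
      have a2 := two_sided h1 h2 hM h' (u := x - x' + u) (r := 2 * r)
        ((norm_add_le _ _).trans (by linarith)) r2
      rw [show x' + (x - x' + u) = x + u by abel, map_add] at a2
      rw [abs_le] at a1 a2 ⊢
      constructor <;> nlinarith
    set c := r / (‖v‖ + 1) with hc
    have c0 : 0 < c := by positivity
    have hu : ‖c • v‖ ≤ r := by
      rw [norm_smul, Real.norm_of_nonneg c0.le, hc, div_mul_eq_mul_div, div_le_iff₀ (by positivity)]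
      nlinarith
    have b1 := b _ hu
    have b2 := b (-(c • v)) (by rwa [norm_neg])
    simp only [map_neg, map_smul, smul_eq_mul] at b1 b2
    have b3 : c * |q v - q' v| ≤ 15 * M * r ^ 2 := by
      rw [← abs_of_pos c0, ← abs_mul]
      rw [abs_le] at b1 b2 ⊢
      constructor <;> nlinarith
    have e : 15 * M * r ^ 2 = c * (15 * M * (‖v‖ + 1) * r) := by rw [hc]; field_simp
    rw [e] at b3
    exact le_of_mul_le_mul_left b3 c0
  have t : Tendsto (fun r => 15 * M * (‖v‖ + 1) * r) (𝓝[>] ‖x - x'‖)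
      (𝓝 (15 * M * (‖v‖ + 1) * ‖x - x'‖)) :=
    (Continuous.tendsto (by fun_prop) _).mono_left nhdsWithin_le_nhds
  refine ge_of_tendsto t ?_
  filter_upwards [Ioo_mem_nhdsGT (show ‖x - x'‖ < κ / 2 by linarith)] with r hr
  exact key r hr.1 (by linarith [hr.2])

lemma null_of_lip {K P : Set (ℝ × ℝ)} (hK : volume K = 0) (x : ℝ × ℝ → ℝ × ℝ)
    (hx : ∀ p ∈ P, x p ∈ K) {L : ℝ} (hL : ∀ p ∈ P, ∀ p' ∈ P, ‖p - p'‖ ≤ L * ‖x p - x p'‖) :
    volume P = 0 := by
  have h1 : LipschitzOnWith L.toNNReal (Function.invFunOn x P) (x '' P) := by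
    refine LipschitzOnWith.of_dist_le' fun a ha b hb => ?_
    have := hL _ (Function.invFunOn_mem ha) _ (Function.invFunOn_mem hb)
    rwa [Function.invFunOn_eq ha, Function.invFunOn_eq hb, ← dist_eq_norm, ← dist_eq_norm] at this
  have h2 := h1.hausdorffMeasure_image_le (d := 2) (by norm_num)
  rw [hausdorffMeasure_prod_real, measure_mono_null (image_subset_iff.2 hx) hK, mul_zero] at h2
  refine measure_mono_null (fun p hp => ?_) (le_antisymm h2 bot_le)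
  refine ⟨x p, mem_image_of_mem _ hp, ?_⟩
  have h3 : ∃ a ∈ P, x a = x p := ⟨p, hp, rfl⟩
  have := hL _ (Function.invFunOn_mem h3) p hp
  rw [Function.invFunOn_eq h3, sub_self, norm_zero, mul_zero] at this
  exact sub_eq_zero.1 (norm_le_zero_iff.1 this)

theorem general {K : Set (ℝ × ℝ)} {A B : Set ℝ} (hK : volume K = 0) (hAB : K ⊆ A ×ˢ B)
    (hA : Dense Aᶜ) (hB : Dense Bᶜ) : Removable K := by
  intro f hf hl
  have line : ∀ x d : ℝ × ℝ, (∀ s : ℝ, x + s • d ∉ K) → 2 * f x ≤ f (x + d) + f (x - d) := by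
    intro x d h
    have := line_mid (φ := fun s => f (x + s • d)) (by fun_prop) fun s => by
      filter_upwards [loc_mid hl (h s) d] with τ hτ
      rwa [add_smul, sub_smul, ← add_assoc, ← add_sub_assoc]
    simpa [sub_eq_add_neg] using this
  have h1 : ∀ x t, 2 * f x ≤ f (x + (t, 0)) + f (x - (t, 0)) := by
    rintro ⟨x, y⟩ t
    exact (isClosed_le (f := fun y => 2 * f (x, y)) (g := fun y => f ((x, y) + (t, 0)) +
      f ((x, y) - (t, 0))) (by fun_prop) (by fun_prop)).closure_subset_iff.2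
      (fun y (hy : y ∈ Bᶜ) => line _ _ fun s hs => hy (by simpa using (hAB hs).2)) (hB y)
  have h2 : ∀ x t, 2 * f x ≤ f (x + (0, t)) + f (x - (0, t)) := by
    rintro ⟨x, y⟩ t
    exact (isClosed_le (f := fun x => 2 * f (x, y)) (g := fun x => f ((x, y) + (0, t)) +
      f ((x, y) - (0, t))) (by fun_prop) (by fun_prop)).closure_subset_iff.2
      (fun x (hx : x ∈ Aᶜ) => line _ _ fun s hs => hx (by simpa using (hAB hs).1)) (hA x)
  refine ⟨convex_univ, fun a _ b _ t' t ht' ht htt => ?_⟩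
  by_contra hn
  push Not at hn
  obtain rfl : t' = 1 - t := by linarith
  simp only [smul_eq_mul] at hn
  set v := b - a with hv
  have hm : (1 - t) • a + t • b = a + t • v := by rw [hv]; module
  rw [hm] at hn
  have hv0 : v ≠ 0 := by
    intro h
    have : b = a := sub_eq_zero.1 h
    rw [h, this] at hn; simp at hn; linarith
  set n := v.1 ^ 2 + v.2 ^ 2 with hn'
  have n0 : n ≠ 0 := fun h => hv0 (Prod.ext (by simp; nlinarith) (by simp; nlinarith))
  set w : ℝ × ℝ := (-v.2, v.1) with hw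
  set σ : ℝ × ℝ →L[ℝ] ℝ := (v.1 / n) • .fst ℝ ℝ ℝ + (v.2 / n) • .snd ℝ ℝ ℝ with hσ
  set ρ : ℝ × ℝ →L[ℝ] ℝ := (-v.2 / n) • .fst ℝ ℝ ℝ + (v.1 / n) • .snd ℝ ℝ ℝ with hρ
  have σv : σ v = 1 := by simp [hσ]; field_simp; rw [hn']
  have σw : σ w = 0 := by simp [hσ, hw]; ring
  have ρv : ρ v = 0 := by simp [hρ]; ring
  have ρw : ρ w = 1 := by simp [hρ, hw]; field_simp; rw [hn']; ring
  have dec : ∀ u, σ u • v + ρ u • w = u := fun u => by
    ext <;> simp [hσ, hρ, hw] <;> field_simp <;> rw [hn'] <;> ring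
  clear_value σ ρ w n
  set S := {u : ℝ × ℝ | (0 ≤ σ u ∧ σ u ≤ 1) ∧ |ρ u| ≤ 1} with hS
  have Sc : IsCompact S := by
    refine Metric.isCompact_of_isClosed_isBounded (((isClosed_le continuous_const σ.continuous).inter
      (isClosed_le σ.continuous continuous_const)).inter
      (isClosed_le ρ.continuous.abs continuous_const))
      (isBounded_iff_forall_norm_le.2 ⟨‖v‖ + ‖w‖, fun u hu => ?_⟩)
    rw [← dec u]
    refine (norm_add_le _ _).trans (add_le_add ?_ ?_) <;> rw [norm_smul]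
    · exact mul_le_of_le_one_left (norm_nonneg _) (abs_le.2 ⟨by linarith [hu.1.1], hu.1.2⟩)
    · exact mul_le_of_le_one_left (norm_nonneg _) hu.2
  set g : ℝ × ℝ → ℝ := fun u => f (a + u) - f a - (f b - f a) * σ u with hg
  have gc : Continuous g := by have := σ.continuous; fun_prop
  set δ := g (t • v) with hδ
  have δ0 : 0 < δ := by simp only [hδ, hg, map_smul, σv, smul_eq_mul]; linarith
  obtain ⟨C, hC⟩ := Sc.bddAbove_image gc.continuousOn
  have hC' : ∀ u ∈ S, g u ≤ C := fun u hu => hC (mem_image_of_mem _ hu)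
  have mS : t • v ∈ S := by
    simp only [hS, mem_ofPred_eq, map_smul, σv, ρv, smul_eq_mul]; norm_num; exact ⟨ht, by linarith⟩
  have C0 : 0 < C := δ0.trans_le (hC' _ mS)
  obtain ⟨η, η0, hη⟩ : ∃ η > 0, ∀ r : ℝ, |r| < η → g (r • w) < δ / 4 ∧ g (v + r • w) < δ / 4 := by
    have c1 : ContinuousAt (fun r : ℝ => g (r • w)) 0 := by fun_prop
    have c2 : ContinuousAt (fun r : ℝ => g (v + r • w)) 0 := by fun_prop
    have g1 : g ((0 : ℝ) • w) < δ / 4 := by simp [hg]; linarith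
    have g2 : g (v + (0 : ℝ) • w) < δ / 4 := by
      simp only [hg, zero_smul, add_zero, σv]; rw [hv, add_sub_cancel]; linarith
    have e := (c1.eventually (gt_mem_nhds g1)).and (c2.eventually (gt_mem_nhds g2))
    obtain ⟨η, η0, h⟩ := Metric.eventually_nhds_iff.1 e
    exact ⟨η, η0, fun r hr => h (by simpa using hr)⟩
  set N := C / η ^ 2 + C with hN
  have N0 : 0 ≤ N := by positivity
  have bd : ∀ u ∈ S, σ u = 0 ∨ σ u = 1 ∨ |ρ u| = 1 → g u - N * ρ u ^ 2 ≤ δ / 4 := by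
    intro u hu h
    have c1 := hC' u hu
    have c0 := mul_nonneg N0 (sq_nonneg (ρ u))
    rcases lt_or_ge |ρ u| η with h' | h'
    · rcases h with h | h | h
      · have := (hη _ h').1
        rw [← dec u, h, zero_smul, zero_add, map_smul, ρw, smul_eq_mul, mul_one]; linarith
      · have := (hη _ h').2
        have e : u = v + ρ u • w := by conv_lhs => rw [← dec u, h, one_smul]
        rw [← e] at this; linarith
      · have : ρ u ^ 2 = 1 := by rw [← sq_abs, h]; norm_num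
        have : 0 ≤ C / η ^ 2 := by positivity
        nlinarith
    · have c2 : η ^ 2 ≤ ρ u ^ 2 := by rw [← sq_abs (ρ u)]; gcongr
      have c3 : C / η ^ 2 * η ^ 2 = C := by field_simp
      have c4 := mul_le_mul_of_nonneg_left c2 (show 0 ≤ C / η ^ 2 by positivity)
      nlinarith [mul_nonneg C0.le (sq_nonneg (ρ u))]
  set G : ℝ × ℝ → ℝ × ℝ → ℝ := fun p u =>
    g u - δ * (σ u * (1 - σ u)) - N * ρ u ^ 2 - p.1 * σ u - p.2 * ρ u with hG
  have hex : ∀ p, ∃ u ∈ S, IsMaxOn (G p) S u := fun p => Sc.exists_isMaxOn ⟨_, mS⟩ (by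
    have := σ.continuous
    have := ρ.continuous
    fun_prop)
  choose x xS xm using hex
  set q : ℝ × ℝ → ℝ × ℝ →L[ℝ] ℝ := fun p =>
    (f b - f a + δ * (1 - 2 * σ (x p)) + p.1) • σ + (2 * N * ρ (x p) + p.2) • ρ with hq
  have touch : ∀ p u, x p + u ∈ S →
      f (a + x p + u) - f (a + x p) - q p u ≤ N * ρ u ^ 2 - δ * σ u ^ 2 := by
    intro p u hu
    have : G p (x p + u) ≤ G p (x p) := xm p hu
    simp only [hG, hg, map_add, ← add_assoc] at this
    simp only [hq, add_apply, smul_apply, smul_eq_mul]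
    nlinarith
  have inn : ∀ p : ℝ × ℝ, ‖p‖ < δ / 10 → S ∈ 𝓝 (x p) := by
    intro p hp
    have p1 := abs_lt.1 ((norm_fst_le p).trans_lt hp)
    have p2 := abs_lt.1 ((norm_snd_le p).trans_lt hp)
    have a1 : G p (t • v) ≤ G p (x p) := xm p mS
    have hs := xS p
    have a2 : ¬ (σ (x p) = 0 ∨ σ (x p) = 1 ∨ |ρ (x p)| = 1) := fun h => by
      have b1 := bd _ hs h
      simp only [hG, ← hδ, map_smul, σv, ρv, smul_eq_mul] at a1
      have b2 := abs_le.1 hs.2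
      have b3 := mul_nonneg δ0.le (mul_nonneg hs.1.1 (sub_nonneg.2 hs.1.2))
      have b4 : p.1 * t ≤ δ / 10 := by nlinarith
      have b5 : -(δ / 10) ≤ p.1 * σ (x p) := by nlinarith [hs.1.1, hs.1.2]
      have b6 : -(δ / 10) ≤ p.2 * ρ (x p) := by nlinarith
      nlinarith [mul_nonneg δ0.le (sq_nonneg (2 * t - 1))]
    push Not at a2
    filter_upwards [σ.continuous.continuousAt.eventually (Ioo_mem_nhds
      (lt_of_le_of_ne hs.1.1 a2.1.symm) (lt_of_le_of_ne hs.1.2 a2.2.1)),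
      ρ.continuous.abs.continuousAt.eventually (gt_mem_nhds (lt_of_le_of_ne hs.2 a2.2.2))]
      with u b1 b2
    exact ⟨⟨b1.1.le, b1.2.le⟩, b2.le⟩
  have inK : ∀ p : ℝ × ℝ, ‖p‖ < δ / 10 → a + x p ∈ K := by
    intro p hp
    by_contra hK'
    have c1 : ContinuousAt (fun τ : ℝ => x p + τ • v) 0 := by fun_prop
    have c2 : ContinuousAt (fun τ : ℝ => x p + -(τ • v)) 0 := by fun_prop
    obtain ⟨τ, t0, t1, t2, t3⟩ := small ((loc_mid hl hK' v).and
      ((c1.eventually_mem (by simpa using inn p hp)).and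
        (c2.eventually_mem (by simpa using inn p hp))))
    have a1 := touch p _ t2
    have a2 := touch p _ t3
    simp only [map_neg, map_smul, σv, ρv, smul_eq_mul, ← sub_eq_add_neg] at a1 a2
    nlinarith [mul_pos δ0 (mul_pos t0 t0)]
  set P : ℕ → Set (ℝ × ℝ) := fun k =>
    {p | ‖p‖ < δ / 10 ∧ ∀ u, ‖u‖ ≤ 1 / ((k : ℝ) + 1) → x p + u ∈ S} with hP
  have cov : Metric.ball (0 : ℝ × ℝ) (δ / 10) ⊆ ⋃ k, P k := by
    intro p hp
    rw [mem_ball_zero_iff] at hp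
    obtain ⟨ε, ε0, hε⟩ := Metric.mem_nhds_iff.1 (inn p hp)
    obtain ⟨k, hk⟩ := exists_nat_one_div_lt ε0
    exact mem_iUnion.2 ⟨k, hp, fun u hu => hε (by simpa using hu.trans_lt hk)⟩
  refine (Metric.measure_ball_pos volume (0 : ℝ × ℝ) (show 0 < δ / 10 by linarith)).ne'
    (measure_mono_null cov (measure_iUnion_null fun k => ?_))
  set M := N * ‖ρ‖ ^ 2 with hM
  have M0 : 0 ≤ M := by positivity
  have up : ∀ p ∈ P k, ∀ u, ‖u‖ ≤ 1 / ((k : ℝ) + 1) →
      f (a + x p + u) - f (a + x p) - q p u ≤ M * ‖u‖ ^ 2 := by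
    intro p hp u hu
    have a1 := touch p u (hp.2 u hu)
    have a2 : ρ u ^ 2 ≤ (‖ρ‖ * ‖u‖) ^ 2 := by
      rw [← sq_abs]; exact pow_le_pow_left₀ (abs_nonneg _) (ρ.le_opNorm u) 2
    have a3 := mul_le_mul_of_nonneg_left a2 N0
    nlinarith [mul_nonneg δ0.le (sq_nonneg (σ u))]
  refine null_of_lip hK (fun p => a + x p) (fun p hp => inK p hp.1)
    (L := δ * (k + 1) + 15 * M * (‖v‖ + 1) + 15 * M * (‖w‖ + 1) + 2 * δ * ‖σ‖ + 2 * N * ‖ρ‖)
    fun p hp p' hp' => ?_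
  set h := ‖a + x p - (a + x p')‖ with hh
  have h0 : 0 ≤ h := norm_nonneg _
  have z1 : 0 ≤ δ * (k + 1) * h := by positivity
  have z2 : 0 ≤ 15 * M * (‖v‖ + 1) * h := by positivity
  have z3 : 0 ≤ 15 * M * (‖w‖ + 1) * h := by positivity
  have z4 : 0 ≤ 2 * δ * ‖σ‖ * h := by positivity
  have z5 : 0 ≤ 2 * N * ‖ρ‖ * h := by positivity
  rcases lt_or_ge (2 * h) (1 / ((k : ℝ) + 1)) with hc | hc
  · have a1 := slope_lip h1 h2 M0 (up p hp) (up p' hp') hc v
    have a2 := slope_lip h1 h2 M0 (up p hp) (up p' hp') hc w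
    simp only [hq, add_apply, smul_apply, smul_eq_mul, σv,
      σw, ρv, ρw, ← hh] at a1 a2
    have e : h = ‖x p - x p'‖ := by rw [hh]; congr 1; abel
    have a3 := mul_le_mul_of_nonneg_left (σ.le_opNorm (x p - x p')) (show 0 ≤ 2 * δ by positivity)
    have a4 := mul_le_mul_of_nonneg_left (ρ.le_opNorm (x p - x p')) (show 0 ≤ 2 * N by positivity)
    rw [← e, map_sub, Real.norm_eq_abs, ← abs_of_nonneg (show 0 ≤ 2 * δ by positivity), ← abs_mul,
      abs_of_nonneg (show 0 ≤ 2 * δ by positivity), abs_le] at a3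
    rw [← e, map_sub, Real.norm_eq_abs, ← abs_of_nonneg (show 0 ≤ 2 * N by positivity), ← abs_mul,
      abs_of_nonneg (show 0 ≤ 2 * N by positivity), abs_le] at a4
    rw [abs_le] at a1 a2
    rw [Prod.norm_def, max_le_iff, Real.norm_eq_abs, Real.norm_eq_abs, abs_le, abs_le]
    simp only [Prod.fst_sub, Prod.snd_sub]
    refine ⟨⟨?_, ?_⟩, ?_, ?_⟩ <;> linarith
  · have a1 := norm_sub_le p p'
    rw [div_le_iff₀ (by positivity)] at hc
    have a2 := mul_le_mul_of_nonneg_left hc δ0.le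
    linarith [hp.1, hp'.1]

lemma cantor_null : volume cantorSet = 0 := by
  have h1 : LipschitzWith (1 / 3 : NNReal) (fun x : ℝ => x / 3) :=
    LipschitzWith.of_dist_le_mul fun x y => by
      rw [Real.dist_eq, Real.dist_eq, ← sub_div, abs_div]; norm_num; linarith
  have h2 : LipschitzWith (1 / 3 : NNReal) (fun x : ℝ => (2 + x) / 3) :=
    LipschitzWith.of_dist_le_mul fun x y => by
      rw [Real.dist_eq, Real.dist_eq, ← sub_div, abs_div]; norm_num; linarith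
  have a1 := h1.hausdorffMeasure_image_le (d := 1) (by norm_num) cantorSet
  have a2 := h2.hausdorffMeasure_image_le (d := 1) (by norm_num) cantorSet
  rw [hausdorffMeasure_real, ENNReal.rpow_one] at a1 a2
  have a3 := measure_union_le (μ := volume) ((fun x : ℝ => x / 3) '' cantorSet)
    ((fun x : ℝ => (2 + x) / 3) '' cantorSet)
  rw [← cantorSet_eq_union_halves] at a3
  have a4 := a3.trans (add_le_add a1 a2)
  have fin : volume cantorSet ≠ ⊤ := isCompact_cantorSet.measure_lt_top.ne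
  lift volume cantorSet to NNReal using fin with m
  have a5 : m ≤ 1 / 3 * m + 1 / 3 * m := by exact_mod_cast a4
  have a6 : (m : ℝ) ≤ 1 / 3 * m + 1 / 3 * m := by exact_mod_cast a5
  have : (m : ℝ) = 0 := by linarith [m.2]
  exact_mod_cast this

theorem joint : Removable (cantorSet ×ˢ cantorSet) ∧
    ∀ (K : Set (ℝ × ℝ)) (A B : Set ℝ), volume K = 0 → K ⊆ A ×ˢ B → Dense Aᶜ → Dense Bᶜ →
      Removable K := by
  have hd : Dense cantorSetᶜ := Measure.dense_of_ae (μ := volume) (measure_eq_zero_iff_ae_notMem.1 cantor_null)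
  refine ⟨general ?_ subset_rfl hd hd, fun K A B => general⟩
  rw [Measure.volume_eq_prod, Measure.prod_prod, cantor_null, zero_mul]

theorem result : Removable (cantorSet ×ˢ cantorSet) := joint.1

end Pool.Agent.Results.MP_95ad2c_an.Dust
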